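import Mathlib
import Pool.Agent.Lib_helper73.AusPure.Main

set_option autoImplicit false

open CategoryTheory AusPure

universe u

namespace Pool.Agent.Results.MP_357124_al.PureCoresolution

instance : BoundedOrder Q16 where
  top := 0
  le_top := by decide
  bot := 15
  bot_le := by decide

/-- There is a bounded poset `P` with `16` elements such that, for every field `K`, the incidence
algebra `A = K P` is finite dimensional, has finite global dimension and has a pure minimal
injective coresolution, but some term `Iⁱ` of this coresolution has projective dimension larger
than `i`.  So pure minimal injective coresolutions do not force Auslander regularity. -/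
theorem result :
    ∃ (P : Type) (_ : Fintype P) (_ : DecidableEq P) (_ : PartialOrder P) (_ : BoundedOrder P),
      Fintype.card P = 16 ∧ ∀ (K : Type u) [Field K],
        Module.Finite K (incAlg K P) ∧ PureNotAuslanderRegular (incAlg K P) := by
  refine ⟨Q16, inferInstance, inferInstance, inferInstance, inferInstance, rfl, ?_⟩
  intro K _
  refine ⟨inferInstance, ?_, CC K, pure_CC, 1, not_AR⟩
  refine finiteGlobalDimension_incAlg (fun v : Q16 => Fin.val v) 16 ?_ ?_
  · intro u v huv
    exact val_lt u v huv.le huv.ne
  · intro v
    exact Fin.isLt v

end Pool.Agent.Results.MP_357124_al.PureCoresolution
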